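import Pool.Agent.Results.MP_eb0437_lc.MonotoneHullsIndependent
import Pool.Agent.U775.MH.Forced
import Pool.Agent.U775.MH.NoHull
import Pool.Agent.Y577.AD.Forced
import Pool.Agent.Helper292.ForceCH

/-!
# Monotone `G_δ` hulls of Borel sets: an unconditional independence proof

Whether there is a monotone `G_δ` hull operation on the Borel sets, on `F_σδσ`, or on `F_σ`, is
independent of ZFC. Both halves are proved outright:

* the continuum hypothesis can be forced, and it implies that every class of Borel subsets of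
  `[0,1]` has a monotone `G_δ` hull operation (starting result);
* adding any number `|K| > 2 ^ ℵ₀` of Cohen reals (to an arbitrary model of ZFC) preserves all
  cardinals and forces the principle `ContinuousHalf`: for every function `F` from `P(ℕ)` to `P(ℕ)`
  the function `z ↦ F ({n | 2 n ∈ z})` is continuous on some non-meagre set. This principle implies
  that there is no monotone `G_δ` hull operation on the `F_σ` sets, nor on any class containing
  them, nor on any class containing the countable and the relatively open subsets of `[0,1]`.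

The starting result `MonotoneHullsIndependent` has the second half only under an unproved
hypothesis (every function from `ℝ` to `ℝ` is continuous on a non-meagre set), which fails in the
Cohen model.

A sentence of the forcing language is represented by the set of the conditions which force it
(`Pool.Agent.Helper669.Forcing`, `Pool.Agent.Helper292.ForceCH`). `ContinuousHalfN` is the
translation of `ContinuousHalf`: the subsets of `ℕ` of the extension are named by the maps
`x : ℕ → Set P`, `meets (x n)` is the sentence which says that `n` is in `x`, and a function from `P(ℕ)` to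
`P(ℕ)` is given by a map of names that sends names of equal sets to names of equal sets.
-/

set_option autoImplicit false

namespace Pool.Agent.Results.MP_eb0437_lc.CohenModelNoHull

open Set Cardinal
open Pool.Agent.Results.MP_eb0437_lc.MonotoneHullsIndependent (HasMonotoneHull Borel01 Gdelta01
  Fsigma01 FsigmaDeltaSigma01)
open Pool.Agent.U775.MH (ContinuousHalf ContinuousHalfN halfB)
open Pool.Agent.H458R4.Cohen (Fn)
open Pool.Agent.Helper669.Forcing (CardinalsPreserved)

theorem no_hull (h : ContinuousHalf) (𝓓 : Set (Set ℝ))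
    (h1 : ∀ D : Set ℝ, D ⊆ Icc 0 1 → D.Countable → D ∈ 𝓓)
    (h2 : ∀ V : Set ℝ, IsOpen V → Icc 0 1 ∩ V ∈ 𝓓) : ¬ HasMonotoneHull 𝓓 Gdelta01 := by
  rintro ⟨φ, hφ1, hφ2⟩
  classical
  have hval : ∀ D (hD : D ∈ 𝓓), (if h : D ∈ 𝓓 then ((φ ⟨D, h⟩ : Gdelta01) : Set ℝ) else ∅)
      = (φ ⟨D, hD⟩ : Set ℝ) := fun D hD => dif_pos hD
  refine Pool.Agent.U775.MH.no_assignment h
    (fun D => if h : D ∈ 𝓓 then ((φ ⟨D, h⟩ : Gdelta01) : Set ℝ) else ∅) ?_ ?_ ?_
  · intro D hD hDc
    have hDD := h1 D hD hDc
    simp only [hval D hDD]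
    exact ⟨(hφ1 ⟨D, hDD⟩).1, (φ ⟨D, hDD⟩).2.2⟩
  · intro V hV
    simp only [hval _ (h2 V hV)]
    exact (hφ1 ⟨_, h2 V hV⟩).2.2
  · intro D V hD hDc hV hsub
    simp only [hval _ (h2 V hV), hval D (h1 D hD hDc)]
    exact hφ2 ⟨D, h1 D hD hDc⟩ ⟨_, h2 V hV⟩ hsub

/-- (1) Some forcing notion preserves `ω₁` and forces the continuum hypothesis, and the continuum
hypothesis implies that every class of Borel subsets of `[0,1]` has a monotone `G_δ` hull
operation. (2) Adding more than `2 ^ ℵ₀` Cohen reals preserves all cardinals and forces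
`ContinuousHalf`. (3) `ContinuousHalf` means that for every `F : 2^ℕ → 2^ℕ` the function which
sends `z` to `F` of the sequence of the even terms of `z` is continuous on a non-meagre set; it
implies that no class which contains the `F_σ` subsets of `[0,1]` has a monotone `G_δ` hull
operation, and that no class which contains the countable and the relatively open subsets of
`[0,1]` has one. -/
theorem result :
    ((∃ (P : Type) (_ : Preorder P), Nonempty P ∧ ∀ p : P,
        p ∈ Pool.Agent.Helper292.ForceCH.OmegaOnePreserved P ∧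
        p ∈ Pool.Agent.Helper292.ForceCH.CHHolds P) ∧
      (aleph 1 = continuum.{0} → ∀ 𝓓 : Set (Set ℝ), 𝓓 ⊆ Borel01 →
        HasMonotoneHull 𝓓 Gdelta01)) ∧
    ((∃ K : Type, 𝔠 < #K) ∧ ∀ K : Type, 𝔠 < #K → ∀ p : Fn K,
      p ∈ CardinalsPreserved.{0, 0} (Fn K) ∧ p ∈ ContinuousHalfN (Fn K)) ∧
    (ContinuousHalf →
      (∀ F : (ℕ → Bool) → ℕ → Bool, ∃ A : Set (ℕ → Bool), ¬ IsMeagre A ∧
        ContinuousOn (fun z => F (fun n => z (2 * n))) A) ∧
      (∀ 𝓓 : Set (Set ℝ), Fsigma01 ⊆ 𝓓 → ¬ HasMonotoneHull 𝓓 Gdelta01) ∧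
      (∀ 𝓓 : Set (Set ℝ), (∀ D : Set ℝ, D ⊆ Icc 0 1 → D.Countable → D ∈ 𝓓) →
        (∀ V : Set ℝ, IsOpen V → Icc 0 1 ∩ V ∈ 𝓓) → ¬ HasMonotoneHull 𝓓 Gdelta01)) ∧
    (Fsigma01 ⊆ FsigmaDeltaSigma01 ∧ FsigmaDeltaSigma01 ⊆ Borel01) := by
  obtain ⟨hs1, hs2, _, _⟩ := MonotoneHullsIndependent.result
  refine ⟨⟨?_, hs2⟩, ⟨⟨Set ℝ, ?_⟩, fun K hK p => ⟨?_, ?_⟩⟩, fun h => ⟨?_, ?_, ?_⟩, hs1⟩
  · obtain ⟨P, i, h1, h2⟩ := Pool.Agent.Helper292.ForceCH.exists_forcing
    exact ⟨P, i, h1, fun p => ⟨(h2 p).1, (h2 p).2.2⟩⟩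
  · rw [mk_set, mk_real]
    exact cantor _
  · exact Pool.Agent.Y577.AD.Forced.cardinalsPreserved p
  · exact Pool.Agent.U775.MH.forced hK p
  · exact h.exists_nonmeagre
  · intro 𝓓 h𝓓
    exact no_hull h 𝓓 (fun D hD hDc => h𝓓 (MonotoneHullsIndependent.countable_mem hD hDc))
      fun V hV => h𝓓 (MonotoneHullsIndependent.open_mem hV)
  · intro 𝓓 h1 h2
    exact no_hull h 𝓓 h1 h2

end Pool.Agent.Results.MP_eb0437_lc.CohenModelNoHull
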